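import Pool.Agent.Lib.MP_b07157_ag.NewtZeta
import Pool.Agent.Lib.MP_b07157_ag.NewtClass

/-!
# Initial parts of polynomials
-/

noncomputable section

namespace MPb07157

open MvPolynomial

/-- The initial part of `f` for the weights `w`: the sum of the terms of `f` of least weight. It is
the part of `f` on the face of the Newton polyhedron on which `w` is least. -/
def initialPart {n : ℕ} (f : MvPolynomial (Fin n) ℂ) (w : Fin n → ℕ) : MvPolynomial (Fin n) ℂ :=
  ∑ v ∈ f.support.filter (fun v => ∀ u ∈ f.support, ∑ j, w j * v j ≤ ∑ j, w j * u j),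
    monomial v (coeff v f)

theorem initialPart_eq {n : ℕ} {f : MvPolynomial (Fin n) ℂ} (hf : f ≠ 0) (w : Fin n → ℕ) :
    initialPart f w = inForm f (face f w (nuf f w)) := by
  unfold initialPart inForm
  congr 1
  ext v
  unfold face
  rw [Finset.mem_filter, Finset.mem_filter]
  obtain ⟨h1, u, hu, h2⟩ := isMinWt_nuf hf w
  constructor
  · rintro ⟨hv, h⟩
    refine ⟨hv, le_antisymm ?_ (h1 v hv)⟩
    rw [← h2]
    exact h u hu
  · rintro ⟨hv, h⟩
    refine ⟨hv, fun u hu => ?_⟩
    have := h1 u hu
    rw [← h] at this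
    exact this

theorem nondegAt_of_initialPart {n : ℕ} {f : MvPolynomial (Fin n) ℂ} (hf : f ≠ 0) {w : Fin n → ℕ}
    (h : ∀ u : Fin n → ℂ, (∀ j, u j ≠ 0) → eval u (initialPart f w) = 0 →
      ∃ j, eval u (pderiv j (initialPart f w)) ≠ 0) :
    NondegAt f (face f w (nuf f w)) := by
  rw [initialPart_eq hf] at h
  exact h

end MPb07157
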