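import Pool.Agent.Lib.MP_b07157_agT.W3
import Pool.Agent.Lib.MP_b07157_agF.Defs

/-!
# A1. The monomials of degree `-1`
-/

noncomputable section

namespace MPb07157Z

open Finset Matrix MvPolynomial MPb07157 MPb07157T MPb07157F

variable {n : ℕ}

/-- The pair of a weight and its minimum. -/
def kof (w : Fin n → ℕ) (N : ℕ) : (Fin n → ℤ) × ℤ := (fun j => (w j : ℤ), (N : ℤ))

/-- The point `∑ α v * v`. -/
def aof (G : Finset (Fin n →₀ ℕ)) (α : (Fin n →₀ ℕ) → ℚ) (j : Fin n) : ℚ :=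
  ∑ v ∈ G, α v * (v j : ℚ)

theorem kof_dot (w : Fin n → ℕ) (N : ℕ) (v : Fin n →₀ ℕ) :
    (kof w N).1 ⬝ᵥ castv v = (wt w v : ℤ) := by
  unfold kof castv wt dotProduct
  push_cast
  rfl

/-- The degree bound: a point of the cone over the face. -/
theorem deg_bound {f : MvPolynomial (Fin n) ℂ} {Sg : Finset ((Fin n → ℤ) × ℤ)}
    (hcut : CutsOut Sg f)
    (hSg : ∀ σ ∈ Sg, 0 < σ.2 ∧ (∀ j, 0 < σ.1 j) ∧ ∀ v ∈ (Fc f).support, σ.2 ≤ σ.1 ⬝ᵥ v)
    {w : Fin n → ℕ} {N : ℕ} (hκ : kof w N ∈ Sg) (p : Fin n → ℝ) (hp : ∀ j, 0 ≤ p j)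
    (het : ∀ τ ∈ Sg, 0 ≤ rdot (et (kof w N) τ) p) (y : Fin n → ℚ)
    (hyv : ∀ v ∈ face f w N, qd y v ≤ 1) :
    ∑ j, (y j : ℝ) * p j ≤ rdot (kof w N).1 p / N := by
  classical
  set σ := kof w N with hσdef
  obtain ⟨hσ2, hσ1, hσle⟩ := hSg σ hκ
  have hN2 : σ.2 = (N : ℤ) := rfl
  have hN : (0 : ℝ) < N := by
    have h1 : (0 : ℤ) < (N : ℤ) := hσ2
    exact_mod_cast h1
  have hσ2' : (0 : ℝ) < σ.2 := by exact_mod_cast hσ2
  have hu0 : 0 ≤ rdot σ.1 p := by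
    unfold rdot
    exact Finset.sum_nonneg fun i _ => mul_nonneg (by exact_mod_cast (hσ1 i).le) (hp i)
  rcases hu0.eq_or_lt with h0 | hσu
  · have h1 : ∀ j, p j = 0 := by
      intro j
      have h2 := (Finset.sum_eq_zero_iff_of_nonneg fun i _ =>
        mul_nonneg (by exact_mod_cast (hσ1 i).le : (0 : ℝ) ≤ (σ.1 i : ℝ)) (hp i)).1
        (by unfold rdot at h0; exact h0.symm) j (Finset.mem_univ j)
      have h3 : (σ.1 j : ℝ) ≠ 0 := by exact_mod_cast (hσ1 j).ne'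
      exact (mul_eq_zero.1 h2).resolve_left h3
    rw [← h0, zero_div]
    exact (Finset.sum_eq_zero fun j _ => by rw [h1 j, mul_zero]).le
  set t : ℝ := σ.2 / rdot σ.1 p with ht
  have ht0 : 0 < t := div_pos hσ2' hσu
  have hσq : rdot σ.1 (t • p) = σ.2 := by
    rw [rdot_smul, ht, div_mul_cancel₀ _ hσu.ne']
  obtain ⟨l, hl0, hl1, hlq⟩ := hcut (t • p) (fun j => by
      rw [Pi.smul_apply, smul_eq_mul]
      exact mul_nonneg ht0.le (hp j)) (fun τ hτ => by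
      have h1 := het τ hτ
      have h2 : 0 ≤ rdot (et σ τ) (t • p) := by
        rw [rdot_smul]
        exact mul_nonneg ht0.le h1
      rw [rdot_et, hσq] at h2
      have h3 : (σ.2 : ℝ) * τ.2 ≤ σ.2 * rdot τ.1 (t • p) := by linarith
      exact le_of_mul_le_mul_left h3 hσ2')
  have hσv : ∀ v ∈ (Fc f).support, (σ.2 : ℝ) ≤ ((σ.1 ⬝ᵥ v : ℤ) : ℝ) := fun v hv => by
    exact_mod_cast hσle v hv
  have hswap : ∀ h : Fin n → ℤ, ∑ j, (h j : ℝ) * ∑ v ∈ (Fc f).support, l v * (v j : ℝ) =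
      ∑ v ∈ (Fc f).support, l v * ((h ⬝ᵥ v : ℤ) : ℝ) := by
    intro h
    simp only [Finset.mul_sum]
    rw [Finset.sum_comm]
    refine Finset.sum_congr rfl fun v _ => ?_
    rw [← rdot_int]
    unfold rdot
    rw [Finset.mul_sum]
    exact Finset.sum_congr rfl fun j _ => by ring
  have hge : (σ.2 : ℝ) ≤ ∑ v ∈ (Fc f).support, l v * ((σ.1 ⬝ᵥ v : ℤ) : ℝ) := by
    calc (σ.2 : ℝ) = ∑ v ∈ (Fc f).support, l v * (σ.2 : ℝ) := by
          rw [← Finset.sum_mul, hl1, one_mul]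
      _ ≤ _ := Finset.sum_le_sum fun v hv => mul_le_mul_of_nonneg_left (hσv v hv) (hl0 v hv)
  have hle : ∑ v ∈ (Fc f).support, l v * ((σ.1 ⬝ᵥ v : ℤ) : ℝ) ≤ σ.2 := by
    rw [← hswap, ← hσq]
    unfold rdot
    exact Finset.sum_le_sum fun j _ =>
      mul_le_mul_of_nonneg_left (hlq j) (by exact_mod_cast (hσ1 j).le)
  have heq : ∑ v ∈ (Fc f).support, l v * ((σ.1 ⬝ᵥ v : ℤ) : ℝ) = σ.2 := le_antisymm hle hge
  have hqj : ∀ j, ∑ v ∈ (Fc f).support, l v * (v j : ℝ) = (t • p) j := by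
    have h1 : ∑ j, (σ.1 j : ℝ) * ((t • p) j - ∑ v ∈ (Fc f).support, l v * (v j : ℝ)) = 0 := by
      simp only [mul_sub]
      rw [Finset.sum_sub_distrib, hswap, heq]
      have h2 : ∑ j, (σ.1 j : ℝ) * (t • p) j = rdot σ.1 (t • p) := rfl
      rw [h2, hσq, sub_self]
    intro j
    have h2 := (Finset.sum_eq_zero_iff_of_nonneg fun j _ =>
      mul_nonneg (by exact_mod_cast (hσ1 j).le : (0 : ℝ) ≤ (σ.1 j : ℝ))
        (sub_nonneg.2 (hlq j))).1 h1 j (Finset.mem_univ j)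
    have h3 : (σ.1 j : ℝ) ≠ 0 := by exact_mod_cast (hσ1 j).ne'
    have h4 := (mul_eq_zero.1 h2).resolve_left h3
    linarith
  have hσeq : ∀ v ∈ (Fc f).support, 0 < l v → σ.1 ⬝ᵥ v = σ.2 := by
    intro v hv hlv
    have h1 : ∑ v ∈ (Fc f).support, l v * (((σ.1 ⬝ᵥ v : ℤ) : ℝ) - σ.2) = 0 := by
      simp only [mul_sub]
      rw [Finset.sum_sub_distrib, heq, ← Finset.sum_mul, hl1, one_mul, sub_self]
    have h2 := (Finset.sum_eq_zero_iff_of_nonneg fun v hv =>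
      mul_nonneg (hl0 v hv) (sub_nonneg.2 (hσv v hv))).1 h1 v hv
    have h3 := (mul_eq_zero.1 h2).resolve_left hlv.ne'
    have h4 : ((σ.1 ⬝ᵥ v : ℤ) : ℝ) = σ.2 := by linarith
    exact_mod_cast h4
  -- the pairing with `y`
  have hyl : ∀ v ∈ (Fc f).support, l v * (∑ j, (y j : ℝ) * (v j : ℝ)) ≤ l v := by
    intro v hv
    rcases (hl0 v hv).eq_or_lt with h0 | h0
    · rw [← h0, zero_mul]
    · obtain ⟨v', hv', rfl⟩ := mem_Fc_support.1 hv
      have h1 := hσeq _ hv h0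
      have h2 : v' ∈ face f w N := by
        refine Finset.mem_filter.2 ⟨hv', ?_⟩
        rw [hσdef, kof_dot] at h1
        have h3 : (wt w v' : ℤ) = (N : ℤ) := h1
        exact_mod_cast h3
      have h3 := hyv v' h2
      have h4 : ∑ j, (y j : ℝ) * ((castv v' j : ℤ) : ℝ) = ((qd y v' : ℚ) : ℝ) := by
        unfold qd castv
        push_cast
        rfl
      rw [h4]
      have h5 : ((qd y v' : ℚ) : ℝ) ≤ 1 := by exact_mod_cast h3
      nlinarith
  have hsum : ∑ j, (y j : ℝ) * (t • p) j ≤ 1 := by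
    calc ∑ j, (y j : ℝ) * (t • p) j
        = ∑ v ∈ (Fc f).support, l v * (∑ j, (y j : ℝ) * (v j : ℝ)) := by
          simp only [← hqj, Finset.mul_sum]
          rw [Finset.sum_comm]
          refine Finset.sum_congr rfl fun v _ => Finset.sum_congr rfl fun j _ => by ring
      _ ≤ ∑ v ∈ (Fc f).support, l v := Finset.sum_le_sum hyl
      _ = 1 := hl1
  have h1 : ∑ j, (y j : ℝ) * (t • p) j = t * ∑ j, (y j : ℝ) * p j := by
    rw [Finset.mul_sum]
    refine Finset.sum_congr rfl fun j _ => ?_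
    rw [Pi.smul_apply, smul_eq_mul]
    ring
  rw [h1] at hsum
  have hN3 : (σ.2 : ℝ) = N := by rw [hN2]; simp
  rw [ht, hN3] at hsum
  rw [le_div_iff₀ hN]
  have h2 := mul_le_mul_of_nonneg_right hsum hσu.le
  rw [one_mul, div_mul_eq_mul_div, div_mul_cancel₀ _ hσu.ne'] at h2
  linarith

/-- The monomials of degree `-1` in the part `l` of the complex: only `l` with `y l = 1`. -/
theorem ones_of_mem {f : MvPolynomial (Fin n) ℂ} {Sg : Finset ((Fin n → ℤ) × ℤ)}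
    (hcut : CutsOut Sg f)
    (hSg : ∀ σ ∈ Sg, 0 < σ.2 ∧ (∀ j, 0 < σ.1 j) ∧ ∀ v ∈ (Fc f).support, σ.2 ≤ σ.1 ⬝ᵥ v)
    {w : Fin n → ℕ} {N : ℕ} (hκ : kof w N ∈ Sg) {y : Fin n → ℚ} {α : (Fin n →₀ ℕ) → ℚ}
    (hy0 : ∀ j, 0 ≤ y j) (hyv : ∀ v ∈ face f w N, qd y v ≤ 1)
    (ha1 : ∀ j, 0 < y j → aof (face f w N) α j = 1)
    (hd1 : ∑ v ∈ face f w N, α v - ∑ j, y j < 1)
    (hd2 : ∀ j, y j < 1 → ∑ v ∈ face f w N, α v - ∑ j, y j < 1 - y j)
    {m : Fin n → ℤ} {l : Fin n}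
    (hm1 : ∀ j, -((aof (face f w N) α j : ℚ) : ℝ) ≤ (m j : ℝ))
    (hm2 : ∀ τ ∈ Sg, -rdot (et (kof w N) τ) (fun j => ((aof (face f w N) α j : ℚ) : ℝ)) ≤
      ((et (kof w N) τ ⬝ᵥ m : ℤ) : ℝ))
    (hm3 : (kof w N).1 ⬝ᵥ m = -(N : ℤ)) (hm4 : ∀ j, 0 < y j → j ≠ l → 0 ≤ m j) :
    1 ≤ y l := by
  classical
  set G := face f w N with hG
  set a : Fin n → ℝ := fun j => ((aof G α j : ℚ) : ℝ) with ha
  have hN : (0 : ℝ) < N := by
    have h1 := (hSg _ hκ).1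
    have h2 : (0 : ℤ) < (N : ℤ) := h1
    exact_mod_cast h2
  have hp : ∀ j, 0 ≤ (fun j => a j + (m j : ℝ)) j := by
    intro j
    have := hm1 j
    simp only [ha]
    linarith
  have hrd : ∀ h : Fin n → ℤ, rdot h (fun j => a j + (m j : ℝ)) = rdot h a + ((h ⬝ᵥ m : ℤ) : ℝ) := by
    intro h
    rw [← rdot_int]
    unfold rdot
    rw [← Finset.sum_add_distrib]
    exact Finset.sum_congr rfl fun j _ => by ring
  have hb := deg_bound hcut hSg hκ (fun j => a j + (m j : ℝ)) hp (fun τ hτ => by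
    rw [hrd]
    have := hm2 τ hτ
    linarith) y hyv
  -- the degree of `a`
  have hka : rdot (kof w N).1 a = N * ((∑ v ∈ G, α v : ℚ) : ℝ) := by
    have h1 : rdot (kof w N).1 a = ((∑ j, (w j : ℚ) * ∑ v ∈ G, α v * (v j : ℚ) : ℚ) : ℝ) := by
      unfold rdot kof
      simp only [ha, aof]
      push_cast
      rfl
    rw [h1]
    have h2 : ∑ j, (w j : ℚ) * ∑ v ∈ G, α v * (v j : ℚ) = N * ∑ v ∈ G, α v := by
      simp only [Finset.mul_sum]
      rw [Finset.sum_comm]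
      refine Finset.sum_congr rfl fun v hv => ?_
      have h3 : wt w v = N := (Finset.mem_filter.1 hv).2
      have h4 : (N : ℚ) = ∑ j, (w j : ℚ) * (v j : ℚ) := by
        rw [← h3]
        unfold wt
        push_cast
        rfl
      rw [h4, Finset.sum_mul]
      exact Finset.sum_congr rfl fun j _ => by ring
    rw [h2]
    push_cast
    rfl
  rw [hrd, hka, hm3] at hb
  have hb' : ∑ j, (y j : ℝ) * (a j + (m j : ℝ)) ≤ ((∑ v ∈ G, α v : ℚ) : ℝ) - 1 := by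
    refine hb.trans (le_of_eq ?_)
    push_cast
    field_simp
    ring
  have hya : ∑ j, (y j : ℝ) * a j = ((∑ j, y j : ℚ) : ℝ) := by
    push_cast
    refine Finset.sum_congr rfl fun j _ => ?_
    rcases (hy0 j).eq_or_lt with h | h
    · rw [← h]
      simp
    · simp only [ha]
      rw [ha1 j h]
      simp
  have hym : 1 - ((∑ v ∈ G, α v - ∑ j, y j : ℚ) : ℝ) ≤ ∑ j, (y j : ℝ) * (-(m j : ℝ)) := by
    have h1 : ∑ j, (y j : ℝ) * (a j + (m j : ℝ)) =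
        ∑ j, (y j : ℝ) * a j - ∑ j, (y j : ℝ) * (-(m j : ℝ)) := by
      rw [← Finset.sum_sub_distrib]
      exact Finset.sum_congr rfl fun j _ => by ring
    rw [h1, hya] at hb'
    push_cast at hb' ⊢
    linarith
  -- all terms but the one of `l` are nonpositive
  have hterm : ∑ j, (y j : ℝ) * (-(m j : ℝ)) ≤ (y l : ℝ) * (-(m l : ℝ)) := by
    rw [← Finset.add_sum_erase _ _ (Finset.mem_univ l)]
    have h1 : ∑ j ∈ Finset.univ.erase l, (y j : ℝ) * (-(m j : ℝ)) ≤ 0 := by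
      refine Finset.sum_nonpos fun j hj => ?_
      rcases (hy0 j).eq_or_lt with h | h
      · rw [← h]
        simp
      · have h2 := hm4 j h (Finset.ne_of_mem_erase hj)
        have h3 : (0 : ℝ) ≤ (m j : ℝ) := by exact_mod_cast h2
        have h4 : (0 : ℝ) ≤ (y j : ℝ) := by exact_mod_cast h.le
        nlinarith
    linarith
  have hd1' : ((∑ v ∈ G, α v - ∑ j, y j : ℚ) : ℝ) < 1 := by exact_mod_cast hd1
  have hpos : 0 < (y l : ℝ) * (-(m l : ℝ)) := by linarith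
  have hyl : 0 < y l := by
    rcases (hy0 l).eq_or_lt with h | h
    · rw [← h] at hpos
      simp at hpos
    · exact h
  have hyl' : (0 : ℝ) < (y l : ℝ) := by exact_mod_cast hyl
  have hml : (-(m l : ℝ)) ≤ 1 := by
    have h1 := hm1 l
    rw [ha1 l hyl] at h1
    push_cast at h1
    linarith
  by_contra hcon
  push Not at hcon
  have h1 := hd2 l hcon
  have h2 : ((∑ v ∈ G, α v - ∑ j, y j : ℚ) : ℝ) < 1 - (y l : ℝ) := by exact_mod_cast h1
  have h3 : (y l : ℝ) * (-(m l : ℝ)) ≤ (y l : ℝ) := by nlinarith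
  linarith

end MPb07157Z
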