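import Pool.Agent.Lib.MP_b07157_agZ.A1
import Pool.Agent.Lib.MP_b07157_agT.F8
import Pool.Agent.Lib.MP_b07157_agT.W2
import Pool.Agent.Lib.MP_b07157_agG.Cor
import Pool.Agent.Lib.MP_b07157_agF.F3
import Pool.Agent.Lib.MP_b07157_agE1.Lp

/-!
# A2. Good sets in compact faces give roots
-/

noncomputable section

namespace MPb07157Z

open Finset Matrix MvPolynomial MPb07157 MPb07157T MPb07157F

variable {n : ℕ}

theorem Fs_kof (f : MvPolynomial (Fin n) ℂ) (w : Fin n → ℕ) (N : ℕ) :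
    Fs (kof w N) (Fc f) = toF f (face f w N) := by
  classical
  have h : Fc f = toF f f.support := rfl
  ext m
  unfold Fs
  rw [h, Finsupp.filter_apply]
  by_cases hm : ∃ v ∈ f.support, m = castv v
  · obtain ⟨v, hv, rfl⟩ := hm
    rw [toF_castv, toF_castv, if_pos hv, kof_dot]
    have h1 : ((wt w v : ℤ) = (kof w N).2) ↔ v ∈ face f w N := by
      have h0 : (kof w N).2 = (N : ℤ) := rfl
      unfold face
      rw [Finset.mem_filter, h0]
      constructor
      · intro h2
        exact ⟨hv, by exact_mod_cast h2⟩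
      · rintro ⟨-, h2⟩
        exact_mod_cast h2
    by_cases h2 : v ∈ face f w N
    · rw [if_pos (h1.2 h2), if_pos h2]
    · rw [if_neg fun h3 => h2 (h1.1 h3), if_neg h2]
  · have h1 : toF f f.support m = 0 := by
      by_contra hne
      obtain ⟨v, hv, e, -⟩ := toF_support hne
      exact hm ⟨v, hv, e⟩
    have h2 : toF f (face f w N) m = 0 := by
      by_contra hne
      obtain ⟨v, hv, e, -⟩ := toF_support hne
      exact hm ⟨v, (Finset.mem_filter.1 hv).1, e⟩
    rw [h1, h2, ite_self]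

theorem nuf_eq_of_isMinWt {f : MvPolynomial (Fin n) ℂ} {a : Fin n → ℕ} {N : ℕ}
    (h : IsMinWt f a N) : nuf f a = N := by
  obtain ⟨h1, v, hv, hvN⟩ := h
  refine le_antisymm (hvN ▸ Nat.sInf_le ⟨v, hv, rfl⟩) ?_
  refine le_csInf ⟨_, v, hv, rfl⟩ ?_
  rintro _ ⟨u, hu, rfl⟩
  exact h1 u hu

theorem nondegC_of {f : MvPolynomial (Fin n) ℂ}
    (hnd : ∀ a : Fin n → ℕ, (∀ i, 0 < a i) → NondegAt f (face f a (nuf f a))) : NondegC f := by
  intro a N ha hN
  have h1 := hnd a ha
  rw [nuf_eq_of_isMinWt hN] at h1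
  exact h1

/-- **Good sets in the relative interior of compact faces give roots.** -/
theorem root_of_good {f : MvPolynomial (Fin n) ℂ} (hf : f ≠ 0)
    (h0 : (0 : Fin n →₀ ℕ) ∉ f.support) (hconv : Convenient f)
    (hnd : ∀ a : Fin n → ℕ, (∀ i, 0 < a i) → NondegAt f (face f a (nuf f a))) {w : Fin n → ℕ} {N : ℕ} (hw : ∀ j, 0 < w j) (hN : 0 < N)
    (hmin : ∀ v ∈ f.support, N ≤ wt w v) {ρ : Finset (Fin n →₀ ℕ)} {γ : (Fin n →₀ ℕ) → ℚ}
    (hg : Good (face f w N) ρ γ) {s₀ : ℚ} (hs : ∑ v ∈ ρ, γ v = -s₀) (b : Polynomial ℂ)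
    (hb : InDnForm f 1 (b.map (MvPowerSeries.C (σ := Fin n) (R := ℂ)))) :
    b.eval (s₀ : ℂ) = 0 := by
  classical
  by_contra hβ
  set κ := kof w N with hκdef
  have hfc : ∀ v ∈ (Fc f).support, (N : ℤ) ≤ κ.1 ⬝ᵥ v := by
    intro v hv
    obtain ⟨v', hv', rfl⟩ := mem_Fc_support.1 hv
    rw [hκdef, kof_dot]
    exact_mod_cast hmin v' hv'
  obtain ⟨Sg, hS₀, hcut, hSg⟩ := exists_weights (f := f) hconv {κ} (by
    intro σ hσ
    rw [Finset.mem_singleton] at hσ
    subst hσ
    refine ⟨by show (0 : ℤ) < (N : ℤ); exact_mod_cast hN, fun j => ?_, hfc⟩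
    show (0 : ℤ) < (w j : ℤ)
    exact_mod_cast hw j)
  have hκ : κ ∈ Sg := hS₀ (Finset.mem_singleton_self _)
  have hW : WOK Sg (Fc f) := wok_of_nondeg (nondegC_of hnd) hcut hSg
  set G := face f w N with hG
  obtain ⟨y, α, hα, ha1, haS, hy0, hyv, hd1, hd2, hgen, hdef⟩ := exists_ya hg (H2 Sg κ)
  set S : List (Fin n) := (Finset.univ.filter fun j => 0 < y j).toList with hS
  have hmemS : ∀ j, j ∈ S ↔ 0 < y j := by
    intro j
    rw [hS, Finset.mem_toList, Finset.mem_filter]
    simp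
  -- the pairing of `a` with integral forms
  have hpair : ∀ h : Fin n → ℤ, ∑ j, (h j : ℚ) * aof G α j = ∑ v ∈ G, α v * (zd h v : ℚ) := by
    intro h
    unfold aof zd
    simp only [Finset.mul_sum]
    rw [Finset.sum_comm]
    refine Finset.sum_congr rfl fun v _ => ?_
    push_cast
    rw [Finset.mul_sum]
    exact Finset.sum_congr rfl fun j _ => by ring
  have hrd : ∀ h : Fin n → ℤ, rdot h (fun j => ((aof G α j : ℚ) : ℝ)) =
      ((∑ v ∈ G, α v * (zd h v : ℚ) : ℚ) : ℝ) := by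
    intro h
    rw [← hpair]
    unfold rdot
    push_cast
    rfl
  have hzd : ∀ (h : Fin n → ℤ) (v : Fin n →₀ ℕ), zd h v = h ⬝ᵥ castv v := fun h v => rfl
  have haS' : ∀ τ ∈ Sg, 0 ≤ rdot (et κ τ) (fun j => ((aof G α j : ℚ) : ℝ)) := by
    intro τ hτ
    rw [hrd]
    have h1 : (0 : ℚ) ≤ ∑ v ∈ G, α v * (zd (et κ τ) v : ℚ) := by
      refine Finset.sum_nonneg fun v hv => mul_nonneg (hα v hv).le ?_
      have hvs := (Finset.mem_filter.1 hv).1
      have hvN : wt w v = N := (Finset.mem_filter.1 hv).2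
      have h2 := (hSg τ hτ).2.2 _ (mem_Fc_support.2 ⟨v, hvs, rfl⟩)
      have h3 : zd (et κ τ) v = (N : ℤ) * (τ.1 ⬝ᵥ castv v - τ.2) := by
        rw [hzd, et_dotProduct, hκdef, kof_dot, hvN]
        show (N : ℤ) * _ - _ = _
        ring
      rw [h3]
      have h4 : (0 : ℤ) ≤ (N : ℤ) * (τ.1 ⬝ᵥ castv v - τ.2) :=
        mul_nonneg (by positivity) (sub_nonneg.2 h2)
      exact_mod_cast h4
    exact_mod_cast h1
  -- the candidate root
  have hs₀ : (s₀ : ℝ) * κ.2 = -∑ j, (κ.1 j : ℝ) := by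
    have h1 : ∑ j, (w j : ℚ) = N * (-s₀) := by
      rw [← hs, Finset.mul_sum]
      have h2 : ∀ j, (w j : ℚ) = ∑ v ∈ ρ, γ v * ((w j : ℚ) * (v j : ℚ)) := by
        intro j
        have h3 := hg.one j
        calc (w j : ℚ) = (w j : ℚ) * ∑ v ∈ ρ, γ v * (v j : ℚ) := by rw [h3, mul_one]
          _ = _ := by
            rw [Finset.mul_sum]
            exact Finset.sum_congr rfl fun v _ => by ring
      rw [Finset.sum_congr rfl fun j _ => h2 j, Finset.sum_comm]
      refine Finset.sum_congr rfl fun v hv => ?_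
      have h3 : wt w v = N := (Finset.mem_filter.1 (hg.sub hv)).2
      rw [← Finset.mul_sum]
      have h4 : ∑ j, (w j : ℚ) * (v j : ℚ) = N := by
        rw [← h3]
        unfold wt
        push_cast
        rfl
      rw [h4]
      ring
    have h2 : (κ.2 : ℝ) = (N : ℝ) := by
      show (((N : ℤ)) : ℝ) = N
      simp
    have h3 : ∑ j, (κ.1 j : ℝ) = ((∑ j, (w j : ℚ) : ℚ) : ℝ) := by
      push_cast
      rfl
    rw [h2, h3, h1]
    push_cast
    ring
  obtain ⟨V, hV, hV1, hV2, hV3⟩ := face_identity hf hW hb hκ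
    (fun j => ((aof G α j : ℚ) : ℝ)) (fun j => by exact_mod_cast ha1 j) haS' S
    (Finset.nodup_toList _) (fun j hj => by
      have := haS j ((hmemS j).1 hj)
      show ((aof G α j : ℚ) : ℝ) = 1
      unfold aof
      rw [this]
      simp) s₀ hs₀
  have hgen1 : ∀ τ ∈ Sg, (∑ j, (et κ τ j : ℚ) * aof G α j = ∑ j, (et κ τ j : ℚ)) ∨
      ∀ z : ℤ, ∑ j, (et κ τ j : ℚ) * aof G α j ≠ z := by
    intro τ hτ
    rw [hpair]
    exact hgen _ (Finset.mem_union_left _ (Finset.mem_image_of_mem _ hτ))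
  have hgen2 : ∀ j, aof G α j = 1 ∨ ∀ z : ℤ, aof G α j ≠ z := by
    intro j
    have h1 := hgen (ee j) (Finset.mem_union_right _ (Finset.mem_image_of_mem _ (Finset.mem_univ j)))
    have h2 : ∑ v ∈ G, α v * (zd (ee j) v : ℚ) = aof G α j := by
      unfold aof
      refine Finset.sum_congr rfl fun v _ => ?_
      rw [hzd, ee_dotProduct]
      simp [castv]
    have h3 : ∑ i, ((ee j i : ℤ) : ℚ) = 1 := by
      rw [Finset.sum_eq_single j]
      · simp [ee]
      · intro i _ hi
        simp [ee, hi]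
      · intro h
        exact absurd (Finset.mem_univ j) h
    rwa [h2, h3] at h1
  obtain ⟨u, hu1, hu2⟩ := MP_b07157_agE1.e1_lp hcut hW hκ (aof G α) ha1 haS' S
    (fun j hj => haS j ((hmemS j).1 hj)) hgen1 hgen2 V hV hV1 hV2 hβ hV3
  -- only the `l` with `y l = 1` matter
  have hyle : ∀ j, y j ≤ 1 := by
    intro j
    obtain ⟨v, hv, hvj⟩ : ∃ v ∈ ρ, v j ≠ 0 := by
      by_contra hcon
      push Not at hcon
      have h1 := hg.one j
      rw [Finset.sum_eq_zero fun v hv => by rw [hcon v hv]; simp] at h1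
      exact zero_ne_one h1
    have h1 := hyv v (hg.sub hv)
    have h2 : y j * (v j : ℚ) ≤ qd y v := by
      unfold qd
      exact Finset.single_le_sum (f := fun i => y i * (v i : ℚ))
        (fun i _ => mul_nonneg (hy0 i) (by positivity)) (Finset.mem_univ j)
    have h3 : (1 : ℚ) ≤ (v j : ℚ) := by exact_mod_cast Nat.one_le_iff_ne_zero.2 hvj
    have h4 := hy0 j
    nlinarith
  set J1 : Finset (Fin n) := Finset.univ.filter fun j => y j = 1 with hJ1
  have hu0 : ∀ l, l ∉ J1 → u l = 0 := by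
    intro l hl
    by_contra hne
    obtain ⟨m, hm⟩ : ∃ m, m ∈ (u l).coeff.support := by
      by_contra hcon
      push Not at hcon
      apply hne
      ext m
      have := hcon m
      rw [Finsupp.mem_support_iff, not_not] at this
      simpa using this
    obtain ⟨hmM, hmd, hmS⟩ := hu2 l m hm
    have h1 := ones_of_mem hcut hSg hκ hy0 hyv haS hd1 hd2 (m := m) (l := l)
      (fun j => hmM.2.1 j) (fun τ hτ => hmM.2.2 τ hτ) hmd
      (fun j hj hjl => hmS j ((hmemS j).2 hj) hjl)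
    exact hl (Finset.mem_filter.2 ⟨Finset.mem_univ _, le_antisymm (hyle l) h1⟩)
  have hsum : ∑ l ∈ J1, u l * thF (toF f G) l = 1 := by
    rw [← hu1, ← Fs_kof]
    refine Finset.sum_subset (Finset.subset_univ _) fun l _ hl => ?_
    rw [hu0 l hl, zero_mul]
  have hle1 : ∀ v ∈ G, ∑ j ∈ J1, v j ≤ 1 := by
    intro v hv
    have h1 := hyv v hv
    have h2 : ((∑ j ∈ J1, v j : ℕ) : ℚ) ≤ qd y v := by
      unfold qd
      push_cast
      calc ∑ j ∈ J1, (v j : ℚ) = ∑ j ∈ J1, y j * (v j : ℚ) := by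
            refine Finset.sum_congr rfl fun j hj => ?_
            rw [(Finset.mem_filter.1 hj).2, one_mul]
        _ ≤ _ := Finset.sum_le_sum_of_subset_of_nonneg (Finset.subset_univ _)
            fun j _ _ => mul_nonneg (hy0 j) (by positivity)
    exact_mod_cast h2.trans h1
  refine MPb07157G.no_unit f G (Finset.filter_subset _ _) J1 ?_ ?_ ?_ ?_ u hsum
  · intro v hv l hl
    exact (Finset.single_le_sum (f := fun j => v j) (fun _ _ => Nat.zero_le _) hl).trans (hle1 v hv)
  · intro v hv l hl l' hl' h1 h2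
    by_contra hne
    have h3 : ∑ j ∈ ({l, l'} : Finset (Fin n)), v j ≤ ∑ j ∈ J1, v j :=
      Finset.sum_le_sum_of_subset (by
        intro j hj
        rcases Finset.mem_insert.1 hj with rfl | hj
        · exact hl
        · rw [Finset.mem_singleton.1 hj]
          exact hl')
    rw [Finset.sum_pair hne, h1, h2] at h3
    have := hle1 v hv
    omega
  · intro J hJ
    rcases J.eq_empty_or_nonempty with rfl | hne
    · simp
    · exact hdef J (fun j hj => (Finset.mem_filter.1 (hJ hj)).2) hne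
  · have hGne : G.Nonempty := by
      rcases ρ.eq_empty_or_nonempty with rfl | ⟨v, hv⟩
      · have hn : IsEmpty (Fin n) := by
          refine ⟨fun j => ?_⟩
          have := hg.one j
          simp at this
        obtain ⟨v, hv⟩ := MvPolynomial.support_nonempty.2 hf
        rw [Subsingleton.elim v 0] at hv
        exact absurd hv h0
      · exact ⟨v, hg.sub hv⟩
    have hnuf : nuf f w = N := by
      obtain ⟨v, hv⟩ := hGne
      exact nuf_eq_of_isMinWt ⟨hmin, v, (Finset.mem_filter.1 hv).1, (Finset.mem_filter.1 hv).2⟩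
    have h1 := MPb07157G.cert_face_of_nondeg (f := f) w (by rw [hnuf]; exact hN) hw hnd
    rw [hnuf] at h1
    exact h1

end MPb07157Z
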