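import Pool.Agent.Lib.MP_b07157_agZ.A2
import Pool.Agent.Lib.MP_b07157_agF.H1
import Pool.Agent.Lib.MP_b07157_agP.P1

/-!
# A3. The strong monodromy conjecture for convenient Newton non-degenerate polynomials
-/

noncomputable section

namespace MPb07157Z

open Finset Matrix MvPolynomial MPb07157 MPb07157T MPb07157F

variable {n : ℕ}

/-- In convenient polynomials the vectors of cones that contribute a pole are positive. -/
theorem pos_of_convenient {f : MvPolynomial (Fin n) ℂ} {s₀ : ℚ} (hconv : Convenient f)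
    {D : Finset (Fin n)} {k : GG n} (hk : IsB f D s₀ k) (j : Fin n) : 0 < k.1 j := by
  obtain ⟨m, -, hm⟩ := hconv j
  have h2 := hk.mem.2.2.1 _ hm
  rw [dotH_apply, Finset.sum_eq_single j] at h2
  · rw [Finsupp.single_eq_same] at h2
    have h3 := hk.mem.1 j
    have h4 := hk.pos
    by_contra h5
    have h6 : k.1 j = 0 := le_antisymm (not_lt.1 h5) h3
    rw [h6] at h2
    simp at h2
    omega
  · intro i _ hi
    rw [Finsupp.single_eq_of_ne hi]
    simp
  · intro h
    exact absurd (Finset.mem_univ _) h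

theorem root_of_goodSet {f : MvPolynomial (Fin n) ℂ} (hf : f ≠ 0)
    (h0 : (0 : Fin n →₀ ℕ) ∉ f.support) (hconv : Convenient f)
    (hnd : ∀ a : Fin n → ℕ, (∀ i, 0 < a i) → NondegAt f (face f a (nuf f a)))
    {D : Finset (Fin n)} {s₀ : ℚ} {k : GG n} (hk : IsB f D s₀ k)
    (hg : ∃ ρ γ, GoodSet f s₀ k ρ γ) :
    IsBernsteinSatoRoot f s₀ ∧ IsLocalBernsteinSatoRoot f s₀ := by
  obtain ⟨ρ, γ, hg⟩ := hg
  obtain ⟨w, N, ρ', γ', hw, hN, hmin, hgood, hs⟩ :=
    exists_face hk.pos hk.mem (pos_of_convenient hconv hk) hg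
  exact roots_of_form fun b hb => root_of_good hf h0 hconv hnd hw hN hmin hgood hs b hb

/-- **The strong monodromy conjecture, global version**, for convenient Newton non-degenerate
polynomials. -/
theorem smc_convenient {f : MvPolynomial (Fin n) ℂ} (hf : f ≠ 0)
    (h0 : (0 : Fin n →₀ ℕ) ∉ f.support) (hconv : Convenient f)
    (hnd : ∀ a : Fin n → ℕ, NondegAt f (face f a (nuf f a))) (s₀ : ℚ)
    (hp : IsPole (Zmot f) s₀) : IsBernsteinSatoRoot f s₀ := by
  by_cases hs : s₀ = -1
  · subst hs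
    exact (roots_of_form (f := f) (s₀ := -1) fun b hb => neg_one_root hf h0 b hb).1
  obtain ⟨D, k, hk, hg⟩ := MPb07157P.exists_good_of_pole hf hnd hs hp
  exact (root_of_goodSet hf h0 hconv (fun a _ => hnd a) hk hg).1

/-- **The strong monodromy conjecture, local version**, for convenient Newton non-degenerate
polynomials. -/
theorem smc_convenient_local {f : MvPolynomial (Fin n) ℂ} (hf : f ≠ 0)
    (h0 : (0 : Fin n →₀ ℕ) ∉ f.support) (hconv : Convenient f)
    (hnd : ∀ a : Fin n → ℕ, (∀ i, 0 < a i) → NondegAt f (face f a (nuf f a))) (s₀ : ℚ)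
    (hp : IsPole (Zmot0 f) s₀) : IsLocalBernsteinSatoRoot f s₀ := by
  by_cases hs : s₀ = -1
  · subst hs
    exact (roots_of_form (f := f) (s₀ := -1) fun b hb => neg_one_root hf h0 b hb).2
  obtain ⟨k, hk, hg⟩ := MPb07157P.exists_good_of_pole_local hf hnd hs hp
  exact (root_of_goodSet hf h0 hconv hnd hk hg).2

end MPb07157Z
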